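import Mathlib

namespace Pool.Agent.Results.MP_ee0f4e_nt.NotIntegral
open Finset

/-- the powered Apery-type sum -/
def A (r n : ℕ) : ℕ := ∑ k ∈ range (n + 1), n.choose k ^ r * (n + k).choose k ^ r

def b (m k : ℕ) : ℕ := (m.descFactorial k / k.factorial * ((m + k).descFactorial k / k.factorial)) % 729
def w1 (m : ℕ) : ℕ := [594, 0, 621, 234, 0, 9].getD m 0
def w2 (m : ℕ) : ℕ :=
  [516, 540, 591, 693, 0, 279, 642, 189, 681, 206, 360, 208, 156, 0, 330, 71, 369, 1].getD m 0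
def T (w : ℕ → ℕ) (r : ℕ) : ℕ := ∑ m ∈ range 18, ∑ k ∈ range 18, w m * b m k ^ r

lemma b_eq (m k : ℕ) : (b m k : ZMod 729) = m.choose k * (m + k).choose k := by
  rw [b, ← Nat.choose_eq_descFactorial_div_factorial, ← Nat.choose_eq_descFactorial_div_factorial,
    ZMod.natCast_mod]
  push_cast; rfl

lemma h1 : ∀ k < 18, (∑ m ∈ range 18, w1 m * b m k ^ 2) % 729 = 0 ∧
    (∑ m ∈ range 18, w2 m * b m k ^ 2) % 729 = 0 := by decide +kernel

lemma h2 : ∀ r < 495, 2 < r → T w1 r % 729 ≠ 0 ∨ T w2 r % 729 ≠ 0 := by decide +kernel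

lemma h3 : ∀ x < 729, x ^ 492 % 729 = x ^ 6 % 729 := by decide +kernel

lemma per (x : ZMod 729) (r : ℕ) (h : 6 ≤ r) : x ^ (r + 486) = x ^ r := by
  obtain ⟨t, rfl⟩ := Nat.exists_eq_add_of_le h
  have : x ^ 492 = x ^ 6 := by
    have := (ZMod.natCast_eq_natCast_iff' _ _ 729).2 (h3 x.val x.val_lt)
    simpa using this
  calc x ^ (6 + t + 486) = x ^ 492 * x ^ t := by ring
    _ = _ := by rw [this, pow_add]

lemma h4 (r : ℕ) (hr : 2 < r) : (T w1 r : ZMod 729) ≠ 0 ∨ (T w2 r : ZMod 729) ≠ 0 := by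
  induction r using Nat.strong_induction_on with
  | _ r ih =>
    rcases lt_or_ge r 495 with h | h
    · simpa only [Ne, ZMod.natCast_eq_zero_iff, Nat.dvd_iff_mod_eq_zero] using h2 r h hr
    · obtain ⟨t, rfl⟩ : ∃ t, r = t + 486 := ⟨r - 486, by omega⟩
      have := ih t (by omega) (by omega)
      simp only [T, Nat.cast_sum, Nat.cast_mul, Nat.cast_pow] at this ⊢
      simpa only [per _ t (by omega)] using this

lemma key (r : ℕ) (z : ℕ → ℤ) (w : ℕ → ℕ)
    (hw : ∀ k < 18, (∑ m ∈ range 18, w m * b m k ^ 2) % 729 = 0)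
    (hz : ∀ m < 18, (A r m : ℤ) = ∑ k ∈ range (m + 1),
      (m.choose k : ℤ) ^ 2 * ((m + k).choose k : ℤ) ^ 2 * z k) (hr : 2 < r) :
    (T w r : ZMod 729) = 0 := by
  have ext : ∀ m < 18, ∀ (s : ℕ) (f : ℕ → ZMod 729), s ≠ 0 →
      ∑ k ∈ range (m + 1), (m.choose k : ZMod 729) ^ s * ((m + k).choose k : ZMod 729) ^ s * f k
        = ∑ k ∈ range 18, (b m k : ZMod 729) ^ s * f k := by
    intro m hm s f hs
    simp only [b_eq, mul_pow]
    refine sum_subset (range_subset_range.2 (by omega)) fun k _ hk => ?_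
    rw [Nat.choose_eq_zero_of_lt (by simpa using hk)]; simp [hs]
  have e : ∀ m ∈ range 18, ∑ k ∈ range 18, (w m : ZMod 729) * (b m k : ZMod 729) ^ r
      = ∑ k ∈ range 18, (w m : ZMod 729) * (b m k : ZMod 729) ^ 2 * z k := by
    intro m hm
    have h := congrArg (Int.cast : ℤ → ZMod 729) (hz m (mem_range.1 hm))
    have e1 := ext m (mem_range.1 hm) r (fun _ => 1) (by omega)
    have e2 := ext m (mem_range.1 hm) 2 (fun k => z k) (by omega)
    simp only [A, mul_one] at h e1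
    push_cast at h
    simp only [mul_assoc (w m : ZMod 729), ← mul_sum]
    rw [← e1, ← e2, h]
  simp only [T, Nat.cast_sum, Nat.cast_mul, Nat.cast_pow]
  rw [sum_congr rfl e, sum_comm]
  refine sum_eq_zero fun k hk => ?_
  have := (ZMod.natCast_eq_zero_iff _ 729).2 (Nat.dvd_of_mod_eq_zero (hw k (mem_range.1 hk)))
  push_cast at this
  rw [← sum_mul, this, zero_mul]

/-- the coefficients, obtained by solving the identities successively -/
noncomputable def c (r s : ℕ) : ℕ → ℚ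
  | n => ((A r n : ℚ) - ∑ k : Fin n,
      (n.choose k : ℚ) ^ s * ((n + k).choose k : ℚ) ^ s * c r s k) / ((n + n).choose n : ℚ) ^ s
  decreasing_by exact k.2

lemma c_spec (r s n : ℕ) : (A r n : ℚ) = ∑ k ∈ range (n + 1),
    (n.choose k : ℚ) ^ s * ((n + k).choose k : ℚ) ^ s * c r s k := by
  have h : ((n + n).choose n : ℚ) ≠ 0 := by
    exact_mod_cast (Nat.choose_pos (by omega)).ne'
  rw [sum_range_succ, ← Fin.sum_univ_eq_sum_range
    (fun k => (n.choose k : ℚ) ^ s * ((n + k).choose k : ℚ) ^ s * c r s k), c]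
  simp only [Nat.choose_self, Nat.cast_one, one_pow, one_mul]
  field_simp
  ring

theorem result : (∀ r s n : ℕ, (A r n : ℚ) = ∑ k ∈ range (n + 1),
      (n.choose k : ℚ) ^ s * ((n + k).choose k : ℚ) ^ s * c r s k) ∧
    ∀ r : ℕ, 2 < r → ∃ k ≤ 17, ¬ ∃ z : ℤ, c r 2 k = z := by
  refine ⟨c_spec, fun r hr => ?_⟩
  by_contra hn
  push Not at hn
  have : ∀ k, ∃ z : ℤ, k ≤ 17 → c r 2 k = z := fun k => by
    by_cases h : k ≤ 17
    · obtain ⟨z, hz⟩ := hn k h; exact ⟨z, fun _ => hz⟩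
    · exact ⟨0, fun h' => absurd h' h⟩
  choose z hz using this
  have hz' : ∀ m < 18, (A r m : ℤ) = ∑ k ∈ range (m + 1),
      (m.choose k : ℤ) ^ 2 * ((m + k).choose k : ℤ) ^ 2 * z k := by
    intro m hm
    have h := c_spec r 2 m
    rw [sum_congr rfl fun k hk => by rw [hz k (by have := mem_range.1 hk; omega)]] at h
    exact_mod_cast h
  rcases h4 r hr with h | h
  · exact h (key r z w1 (fun k hk => (h1 k hk).1) hz' hr)
  · exact h (key r z w2 (fun k hk => (h1 k hk).2) hz' hr)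

end Pool.Agent.Results.MP_ee0f4e_nt.NotIntegral
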